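import Pool.Agent.Helper33.KD4.Bump2

/-! KD project (MP_019250_an), Part IV, piece IV.7a (POS): truncation of a supersolution with a
good tail. -/

namespace KD.IV

open MeasureTheory Set Filter Topology

variable {d : ℕ}

namespace Pos

/-- the truncated function -/
noncomputable def gg (f : ℝ → Vd d → Vd d → ℝ) (t : ℝ) (x v : Vd d) : ℝ :=
  letI := Classical.propDecidable (-1 ≤ t ∧ t ≤ 0 ∧ ‖x‖ ≤ 1)
  if -1 ≤ t ∧ t ≤ 0 ∧ ‖x‖ ≤ 1 then max (f t x v + 1) 0 else 0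

theorem gg_pos (f : ℝ → Vd d → Vd d → ℝ) {t : ℝ} {x : Vd d} (h1 : -1 ≤ t) (h2 : t ≤ 0)
    (h3 : ‖x‖ ≤ 1) (v : Vd d) : gg f t x v = max (f t x v + 1) 0 := by
  unfold gg
  rw [if_pos ⟨h1, h2, h3⟩]

theorem gg_nonneg (f : ℝ → Vd d → Vd d → ℝ) (t : ℝ) (x v : Vd d) : 0 ≤ gg f t x v := by
  unfold gg
  split_ifs
  · exact le_max_right _ _
  · exact le_rfl

theorem gg_meas {f : ℝ → Vd d → Vd d → ℝ} (hf : ∀ t x, Measurable (f t x)) (t : ℝ) (x : Vd d) :
    Measurable (gg f t x) := by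
  by_cases h : -1 ≤ t ∧ t ≤ 0 ∧ ‖x‖ ≤ 1
  · have : gg f t x = fun v => max (f t x v + 1) 0 := by
      funext v
      exact gg_pos f h.1 h.2.1 h.2.2 v
    rw [this]
    exact ((hf t x).add_const 1).max measurable_const
  · have : gg f t x = fun _ => 0 := by
      funext v
      unfold gg
      rw [if_neg h]
    rw [this]
    exact measurable_const

theorem gg_bdd {f : ℝ → Vd d → Vd d → ℝ} {A : ℝ} (hA : ∀ t x v, |f t x v| ≤ A) (t : ℝ)
    (x v : Vd d) : |gg f t x v| ≤ A + 1 := by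
  have h0 := abs_le.1 (hA t x v)
  have hA0 : 0 ≤ A := (abs_nonneg _).trans (hA t x v)
  rw [abs_of_nonneg (gg_nonneg f t x v)]
  unfold gg
  split_ifs
  · exact max_le (by linarith [h0.2]) (by linarith)
  · linarith

/-- the smaller open domain -/
def D' (d : ℕ) : Set (ℝ × Vd d × Vd d) := {p | -1 < p.1 ∧ p.1 < 0 ∧ ‖p.2.1‖ < 1 ∧ ‖p.2.2‖ < 3 / 4}

theorem D'_open : IsOpen (D' d) := by
  have h : D' d = {p | -1 < p.1} ∩ ({p | p.1 < 0} ∩ ({p | ‖p.2.1‖ < 1} ∩ {p | ‖p.2.2‖ < 3 / 4})) := by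
    ext p
    simp [D']
  rw [h]
  refine (isOpen_lt (by fun_prop) (by fun_prop)).inter ((isOpen_lt (by fun_prop) (by fun_prop)).inter
    ((isOpen_lt (by fun_prop) (by fun_prop)).inter (isOpen_lt (by fun_prop) (by fun_prop))))

end Pos

open Pos in
/-- **IV.7a POS** (truncation of a supersolution with a good tail). -/
theorem POS_pf (hd : 1 ≤ d) {s lam Lam : ℝ} (hs : 0 < s) (hs1 : s < 1) (hlam : 0 < lam)
    {r γ : ℝ} (hr : 0 < r) (hr1 : r ≤ 1) (hγ : 0 < γ)
    (hint : IntegrableOn (fun w : Vd d => (2 * ((‖w‖ + 1) / r) ^ γ - 2) * kr s w)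
      {w | 1 / 4 < ‖w‖})
    {M0 η : ℝ} {a : ℝ → Vd d → Vd d → Vd d → ℝ} {f : ℝ → Vd d → Vd d → ℝ}
    {D : Set (ℝ × Vd d × Vd d)} (hK : Kern lam Lam M0 a) (hS : Super s η a f D) (hD : Q1 d ⊆ D)
    (hf1 : ∀ t x v, -1 ≤ t → t ≤ 0 → ‖x‖ ≤ 1 → ‖v‖ ≤ 1 → -1 ≤ f t x v)
    (hf2 : ∀ t x v, -1 ≤ t → t ≤ 0 → ‖x‖ ≤ 1 → 1 ≤ ‖v‖ →
      -(2 * (‖v‖ / r) ^ γ - 1) ≤ f t x v) :
    ∃ g : ℝ → Vd d → Vd d → ℝ, (∀ t x v, 0 ≤ g t x v) ∧
      (∀ t x v, -1 ≤ t → t ≤ 0 → ‖x‖ ≤ 1 → ‖v‖ ≤ 1 → g t x v = f t x v + 1) ∧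
      Super s (η + Lam * ∫ w in {w : Vd d | 1 / 4 < ‖w‖}, (2 * ((‖w‖ + 1) / r) ^ γ - 2) * kr s w)
        a g {p | -1 < p.1 ∧ p.1 < 0 ∧ ‖p.2.1‖ < 1 ∧ ‖p.2.2‖ < 3 / 4} := by
  have hg1 : ∀ t x v, -1 ≤ t → t ≤ 0 → ‖x‖ ≤ 1 → ‖v‖ ≤ 1 → gg f t x v = f t x v + 1 := by
    intro t x v h1 h2 h3 h4
    rw [gg_pos f h1 h2 h3]
    exact max_eq_left (by linarith [hf1 t x v h1 h2 h3 h4])
  have hDD : D' d ⊆ D := by
    intro p hp
    exact hD ⟨hp.1.le, hp.2.1.le, hp.2.2.1.le, by linarith [hp.2.2.2]⟩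
  have hgD : ∀ p ∈ D' d, gg f p.1 p.2.1 p.2.2 = f p.1 p.2.1 p.2.2 + 1 := by
    intro p hp
    exact hg1 _ _ _ hp.1.le hp.2.1.le hp.2.2.1.le (by linarith [hp.2.2.2])
  refine ⟨gg f, gg_nonneg f, hg1, ?_⟩
  change Super s _ a (gg f) (D' d)
  obtain ⟨A, hA⟩ := hS.bdd
  refine ⟨gg_meas hS.meas, ⟨A + 1, gg_bdd hA⟩, ?_⟩
  obtain ⟨ft, fx, fv, fvv, hR, hsup⟩ := hS.sup
  have hRg : Reg (gg f) ft fx fv fvv (D' d) := by
    refine ⟨D'_open, ?_, ?_, ?_, ?_, ?_, hR.ct.mono hDD, hR.cx.mono hDD, hR.cv.mono hDD,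
      hR.cvv.mono hDD⟩
    · refine ((hR.cf.mono hDD).add (continuousOn_const (c := (1 : ℝ)))).congr ?_
      intro p hp
      exact hgD p hp
    · intro p hp
      refine ((hR.dt p (hDD hp)).add_const 1).congr_of_eventuallyEq ?_
      have hc : Continuous (fun t : ℝ => ((t, p.2.1, p.2.2) : ℝ × Vd d × Vd d)) := by fun_prop
      have := hc.continuousAt.eventually_mem (D'_open.mem_nhds (x := (p.1, p.2.1, p.2.2)) hp)
      exact this.mono fun t ht => hgD _ ht
    · intro p hp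
      refine ((hR.dx p (hDD hp)).add_const 1).congr_of_eventuallyEq ?_
      have hc : Continuous (fun x : Vd d => ((p.1, x, p.2.2) : ℝ × Vd d × Vd d)) := by fun_prop
      have := hc.continuousAt.eventually_mem (D'_open.mem_nhds (x := (p.1, p.2.1, p.2.2)) hp)
      exact this.mono fun t ht => hgD _ ht
    · intro p hp
      refine ((hR.dv p (hDD hp)).add_const 1).congr_of_eventuallyEq ?_
      have hc : Continuous (fun v : Vd d => ((p.1, p.2.1, v) : ℝ × Vd d × Vd d)) := by fun_prop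
      have := hc.continuousAt.eventually_mem (D'_open.mem_nhds (x := (p.1, p.2.1, p.2.2)) hp)
      exact this.mono fun t ht => hgD _ ht
    · intro p hp
      exact hR.dvv p (hDD hp)
  refine ⟨ft, fx, fv, fvv, hRg, ?_⟩
  rintro ⟨t, x, v⟩ hp
  have hpD : (t, x, v) ∈ D := hDD hp
  have hs2 := hsup (t, x, v) hpD
  simp only at hs2 ⊢
  have hp1 : -1 < t := hp.1
  have hp2 : t < 0 := hp.2.1
  have hp3 : ‖x‖ < 1 := hp.2.2.1
  have hp4 : ‖v‖ < 3 / 4 := hp.2.2.2
  suffices hkey : Lop s a (gg f) t x v ≤ Lop s a f t x v +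
      Lam * ∫ w in {w : Vd d | 1 / 4 < ‖w‖}, (2 * ((‖w‖ + 1) / r) ^ γ - 2) * kr s w by
    linarith
  obtain ⟨S, hSd⟩ : ∃ S : Set (Vd d), S = {w : Vd d | 1 / 4 < ‖w‖} := ⟨_, rfl⟩
  have hSm : MeasurableSet S := by
    rw [hSd]
    exact measurableSet_lt measurable_const measurable_norm
  rw [← hSd] at hint ⊢
  -- integrability
  have hfi := Super.integrable hd hs hs1 hlam.le hK hS hpD
  have hgi : Integrable (fun w => sd (gg f t x) v w * a t x v w * kr s w) := by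
    have hnear : ∀ᶠ u in 𝓝 v, (t, x, u) ∈ D' d := by
      have hc : Continuous (fun u : Vd d => ((t, x, u) : ℝ × Vd d × Vd d)) := by fun_prop
      exact hc.continuousAt.eventually_mem (D'_open.mem_nhds hp)
    have hl := sd_local (g := gg f t x) (g' := fv t x) (g'' := fvv t x v) (v := v)
      (hnear.mono fun u hu => hRg.dv (t, x, u) hu) (hRg.dvv (t, x, v) hp)
    obtain ⟨C, hC⟩ := sd_global (gg_bdd hA t x) hl
    refine integrable_sd hd hs hs1 (hK.meas t x v) (Lam := Lam) (fun w => ?_)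
      (gg_meas hS.meas t x) hC
    rw [abs_of_nonneg (hlam.le.trans (hK.lo t x v w))]
    exact hK.hi t x v w
  -- the negative part
  have hLam : 0 ≤ Lam := (hlam.le.trans (hK.lo t x v 0)).trans (hK.hi t x v 0)
  have hbase : ∀ y : ℝ, 1 ≤ y → 1 ≤ (y / r) ^ γ := by
    intro y hy
    refine Real.one_le_rpow ?_ hγ.le
    rw [le_div_iff₀ hr]
    linarith
  have hn0 : ∀ u : Vd d, ‖u‖ ≤ 1 → gg f t x u - (f t x u + 1) = 0 := by
    intro u hu
    rw [hg1 t x u hp1.le hp2.le hp3.le hu]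
    ring
  have hn1 : ∀ u w : Vd d, ‖u‖ ≤ ‖w‖ + 1 →
      gg f t x u - (f t x u + 1) ≤ 2 * ((‖w‖ + 1) / r) ^ γ - 2 := by
    intro u w huw
    have h1 := hbase (‖w‖ + 1) (by linarith [norm_nonneg w])
    rcases le_total ‖u‖ 1 with hu | hu
    · rw [hn0 u hu]; linarith
    · have h2 := hf2 t x u hp1.le hp2.le hp3.le hu
      have h3 : (‖u‖ / r) ^ γ ≤ ((‖w‖ + 1) / r) ^ γ := by
        refine Real.rpow_le_rpow (by positivity) ?_ hγ.le
        gcongr
      rw [gg_pos f hp1.le hp2.le hp3.le]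
      rcases le_total (f t x u + 1) 0 with h4 | h4
      · rw [max_eq_right h4]; linarith
      · rw [max_eq_left h4]; linarith
  have hsdeq : ∀ w, sd (gg f t x) v w = sd (f t x) v w +
      ((gg f t x (v + w) - (f t x (v + w) + 1)) + (gg f t x (v - w) - (f t x (v - w) + 1))) := by
    intro w
    have h0 := hn0 v (by linarith)
    simp only [sd]
    linarith
  have hSint : Integrable (S.indicator
      (fun w : Vd d => 2 * Lam * ((2 * ((‖w‖ + 1) / r) ^ γ - 2) * kr s w))) := by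
    rw [integrable_indicator_iff hSm]
    exact hint.const_mul _
  have hmono : ∫ w, sd (gg f t x) v w * a t x v w * kr s w ≤
      ∫ w, (sd (f t x) v w * a t x v w * kr s w + S.indicator
        (fun w : Vd d => 2 * Lam * ((2 * ((‖w‖ + 1) / r) ^ γ - 2) * kr s w)) w) := by
    refine integral_mono hgi (hfi.add hSint) fun w => ?_
    have hk := kr_nonneg s w
    have ha0 := hlam.le.trans (hK.lo t x v w)
    have ha1 := hK.hi t x v w
    simp only
    rw [hsdeq w]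
    by_cases hw : w ∈ S
    · rw [indicator_of_mem hw]
      have h1 := hn1 (v + w) w (by
        have := norm_add_le v w
        linarith)
      have h2 := hn1 (v - w) w (by
        have := norm_sub_le v w
        linarith)
      have h3 := hbase (‖w‖ + 1) (by linarith [norm_nonneg w])
      have h4 : ((gg f t x (v + w) - (f t x (v + w) + 1)) +
          (gg f t x (v - w) - (f t x (v - w) + 1))) * a t x v w * kr s w ≤
          (2 * (2 * ((‖w‖ + 1) / r) ^ γ - 2)) * Lam * kr s w := by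
        refine mul_le_mul_of_nonneg_right ?_ hk
        have h5 : 0 ≤ 2 * (2 * ((‖w‖ + 1) / r) ^ γ - 2) := by linarith
        calc _ ≤ (2 * (2 * ((‖w‖ + 1) / r) ^ γ - 2)) * a t x v w :=
              mul_le_mul_of_nonneg_right (by linarith) ha0
          _ ≤ _ := mul_le_mul_of_nonneg_left ha1 h5
      calc _ = sd (f t x) v w * a t x v w * kr s w +
            ((gg f t x (v + w) - (f t x (v + w) + 1)) +
              (gg f t x (v - w) - (f t x (v - w) + 1))) * a t x v w * kr s w := by ring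
        _ ≤ sd (f t x) v w * a t x v w * kr s w +
            (2 * (2 * ((‖w‖ + 1) / r) ^ γ - 2)) * Lam * kr s w := by linarith
        _ = _ := by ring
    · rw [indicator_of_notMem hw]
      have hw' : ‖w‖ ≤ 1 / 4 := by
        rw [hSd] at hw
        exact not_lt.1 hw
      have h1 := hn0 (v + w) (by
        have := norm_add_le v w
        linarith)
      have h2 := hn0 (v - w) (by
        have := norm_sub_le v w
        linarith)
      rw [h1, h2]
      simp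
  rw [integral_add hfi hSint, integral_indicator hSm, integral_const_mul] at hmono
  rw [Lop_eq, Lop_eq, LL_eq, LL_eq]
  linarith

end KD.IV
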